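import Pool.Agent.helper71.FT.Spec

/-!
# MP_07c750, project FT, row `ft:VMS` (the derivatives of the polynomials `vm`)
-/

open scoped MatrixGroups ContDiff Topology UpperHalfPlane ComplexConjugate
open UpperHalfPlane MeasureTheory Filter Set

set_option autoImplicit false

namespace Pool.Agent.FT

open Pool.Agent.RS
open Pool.Agent.MS (bq BB BA SF pf)
open Pool.Agent.EN (XG MG mkX mkM fl pr)
open Pool.Agent.FS (tp)

noncomputable section

theorem VMS_e2 : (2 : ℝ) ≤ Real.exp 1 := by
  have h := Real.add_one_le_exp (1 : ℝ)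
  linarith

theorem VMS_one (Γ : Subgroup SL(2, ℝ)) : SF Γ (fun _ => (1 : ℝ)) (fun _ => 0) (fun _ => 0) (fun _ => 0) :=
  ⟨⟨continuous_const, fun _ _ => rfl⟩, ⟨continuous_const, fun _ _ => rfl⟩, ⟨continuous_const, fun _ _ => rfl⟩, ⟨continuous_const, fun _ _ => rfl⟩,
    fun _ => hasDerivAt_const _ _, fun _ => hasDerivAt_const _ _, fun _ => hasDerivAt_const _ _⟩

theorem VMS_add (Γ : Subgroup SL(2, ℝ)) (Ψ Ψa Ψn Ψl Φ Φa Φn Φl : SL(2, ℝ) → ℝ) (h : SF Γ Ψ Ψa Ψn Ψl) (k : SF Γ Φ Φa Φn Φl) :
    SF Γ (fun g => Ψ g + Φ g) (fun g => Ψa g + Φa g) (fun g => Ψn g + Φn g) (fun g => Ψl g + Φl g) := by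
  refine ⟨⟨h.i0.1.add k.i0.1, fun γ g => ?_⟩, ⟨h.ia.1.add k.ia.1, fun γ g => ?_⟩, ⟨h.i1.1.add k.i1.1, fun γ g => ?_⟩, ⟨h.il.1.add k.il.1, fun γ g => ?_⟩,
    fun g => (h.da g).add (k.da g), fun g => (h.dn g).add (k.dn g), fun g => (h.dl g).add (k.dl g)⟩
  · have e1 := h.i0.2 γ g
    have e2 := k.i0.2 γ g
    simp only [e1, e2]
  · have e1 := h.ia.2 γ g
    have e2 := k.ia.2 γ g
    simp only [e1, e2]
  · have e1 := h.i1.2 γ g
    have e2 := k.i1.2 γ g
    simp only [e1, e2]
  · have e1 := h.il.2 γ g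
    have e2 := k.il.2 γ g
    simp only [e1, e2]

theorem VMS_proof (hSFP : IR.SFP_stmt) (hVMB : VMB_stmt) : VMS_stmt := by
  intro Γ C χ χa χn χl n m hC hχ h01 hn hl
  have hC0 : 0 ≤ C := by linarith
  have key : ∀ n m : ℕ, ∃ Ψa Ψn Ψl : SL(2, ℝ) → ℝ, SF Γ (vm χ n m) Ψa Ψn Ψl ∧
      (∀ g, |Ψn g| ≤ C * (2 * (1 - Real.exp (-(n : ℝ))))) ∧ ∀ g, |Ψl g| ≤ C * Real.exp n := by
    intro n
    induction n with
    | zero =>
      intro m
      refine ⟨fun _ => 0, fun _ => 0, fun _ => 0, ?_, ?_, ?_⟩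
      · have he : vm χ 0 m = fun _ => (1 : ℝ) := by
          funext g
          unfold vm
          rfl
        rw [he]
        exact VMS_one Γ
      · intro g; simp
      · intro g; simp only [abs_zero]; positivity
    | succ n ih =>
      have hT := (hSFP Γ χ χa χn χl hχ).2.2 (n : ℝ)
      have hN : ((n + 1 : ℕ) : ℝ) = (n : ℝ) + 1 := by push_cast; ring
      have hE : Real.exp (-(((n + 1 : ℕ) : ℝ))) * 2 ≤ Real.exp (-(n : ℝ)) := by
        have h3 : Real.exp (-(n : ℝ)) = Real.exp (-(((n + 1 : ℕ) : ℝ))) * Real.exp 1 := by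
          rw [← Real.exp_add, hN]; congr 1; ring
        rw [h3]
        exact mul_le_mul_of_nonneg_left VMS_e2 (Real.exp_pos _).le
      have hE' : Real.exp (n : ℝ) * 2 ≤ Real.exp (((n + 1 : ℕ) : ℝ)) := by
        rw [hN, Real.exp_add]
        exact mul_le_mul_of_nonneg_left VMS_e2 (Real.exp_pos _).le
      intro m
      rcases m with _ | m
      · obtain ⟨Ψa, Ψn, Ψl, hS, h1, h2⟩ := ih 0
        have hP := (hSFP Γ _ _ _ _ hT).1 _ _ _ _ hS
        have he : vm χ (n + 1) 0 = fun g => χ (g * aM n) * vm χ n 0 g := by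
          funext g
          rw [vm]
        rw [← he] at hP
        refine ⟨_, _, _, hP, ?_, ?_⟩
        · intro g
          have hb := hVMB χ n 0 g h01
          have hu := h01 (g * aM n)
          have a0 : |Real.exp (-(n : ℝ)) * χn (g * aM n)| ≤ Real.exp (-(n : ℝ)) * C := by
            rw [abs_mul, abs_of_pos (Real.exp_pos _)]
            exact mul_le_mul_of_nonneg_left (hn _) (Real.exp_pos _).le
          have a1 : |Real.exp (-(n : ℝ)) * χn (g * aM n) * vm χ n 0 g| ≤ Real.exp (-(n : ℝ)) * C := by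
            rw [abs_mul, abs_of_nonneg hb.1]
            exact (mul_le_of_le_one_right (abs_nonneg _) hb.2.1).trans a0
          have a2 : |χ (g * aM n) * Ψn g| ≤ C * (2 * (1 - Real.exp (-(n : ℝ)))) := by
            rw [abs_mul, abs_of_nonneg hu.1]
            exact (mul_le_of_le_one_left (abs_nonneg _) hu.2).trans (h1 g)
          refine (abs_add_le _ _).trans ?_
          nlinarith
        · intro g
          have hb := hVMB χ n 0 g h01
          have hu := h01 (g * aM n)
          have a0 : |Real.exp (n : ℝ) * χl (g * aM n)| ≤ Real.exp (n : ℝ) * C := by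
            rw [abs_mul, abs_of_pos (Real.exp_pos _)]
            exact mul_le_mul_of_nonneg_left (hl _) (Real.exp_pos _).le
          have a1 : |Real.exp (n : ℝ) * χl (g * aM n) * vm χ n 0 g| ≤ Real.exp (n : ℝ) * C := by
            rw [abs_mul, abs_of_nonneg hb.1]
            exact (mul_le_of_le_one_right (abs_nonneg _) hb.2.1).trans a0
          have a2 : |χ (g * aM n) * Ψl g| ≤ C * Real.exp (n : ℝ) := by
            rw [abs_mul, abs_of_nonneg hu.1]
            exact (mul_le_of_le_one_left (abs_nonneg _) hu.2).trans (h2 g)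
          refine (abs_add_le _ _).trans ?_
          nlinarith
      · obtain ⟨Aa, An, Al, hA, hA1, hA2⟩ := ih (m + 1)
        obtain ⟨Ba, Bn, Bl, hB, hB1, hB2⟩ := ih m
        have hP := (hSFP Γ _ _ _ _ hT).1 _ _ _ _ hA
        have hQ := (hSFP Γ _ _ _ _ ((hSFP Γ _ _ _ _ hT).2.1)).1 _ _ _ _ hB
        have hR := VMS_add Γ _ _ _ _ _ _ _ _ hP hQ
        have he : vm χ (n + 1) (m + 1) = fun g => χ (g * aM n) * vm χ n (m + 1) g + (1 - χ (g * aM n)) * vm χ n m g := by
          funext g
          rw [vm]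
        rw [← he] at hR
        refine ⟨_, _, _, hR, ?_, ?_⟩
        · intro g
          have hb := hVMB χ n (m + 1) g h01
          have hc := hVMB χ n m g h01
          have hu := h01 (g * aM n)
          have a0 : |Real.exp (-(n : ℝ)) * χn (g * aM n)| ≤ Real.exp (-(n : ℝ)) * C := by
            rw [abs_mul, abs_of_pos (Real.exp_pos _)]
            exact mul_le_mul_of_nonneg_left (hn _) (Real.exp_pos _).le
          have a1 : |(Real.exp (-(n : ℝ)) * χn (g * aM n)) * (vm χ n (m + 1) g - vm χ n m g)| ≤ Real.exp (-(n : ℝ)) * C := by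
            rw [abs_mul, abs_of_nonneg (by linarith [hc.2.2.1] : 0 ≤ vm χ n (m + 1) g - vm χ n m g)]
            exact (mul_le_of_le_one_right (abs_nonneg _) (by linarith [hb.2.1, hc.1])).trans a0
          have a2 : |χ (g * aM n) * An g| ≤ χ (g * aM n) * (C * (2 * (1 - Real.exp (-(n : ℝ))))) := by
            rw [abs_mul, abs_of_nonneg hu.1]
            exact mul_le_mul_of_nonneg_left (hA1 g) hu.1
          have a3 : |(1 - χ (g * aM n)) * Bn g| ≤ (1 - χ (g * aM n)) * (C * (2 * (1 - Real.exp (-(n : ℝ))))) := by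
            rw [abs_mul, abs_of_nonneg (by linarith [hu.2] : 0 ≤ 1 - χ (g * aM n))]
            exact mul_le_mul_of_nonneg_left (hB1 g) (by linarith [hu.2])
          have he : ∀ x y z w p q t : ℝ, x * y + z * w + (-x * p + t * q) = x * (y - p) + z * w + t * q := by
            intro x y z w p q t
            ring
          refine (le_of_eq (congrArg abs (he _ _ _ _ _ _ _))).trans ?_
          refine (abs_add_le _ _).trans ?_
          refine (add_le_add (abs_add_le _ _) le_rfl).trans ?_
          nlinarith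
        · intro g
          have hb := hVMB χ n (m + 1) g h01
          have hc := hVMB χ n m g h01
          have hu := h01 (g * aM n)
          have a0 : |Real.exp (n : ℝ) * χl (g * aM n)| ≤ Real.exp (n : ℝ) * C := by
            rw [abs_mul, abs_of_pos (Real.exp_pos _)]
            exact mul_le_mul_of_nonneg_left (hl _) (Real.exp_pos _).le
          have a1 : |(Real.exp (n : ℝ) * χl (g * aM n)) * (vm χ n (m + 1) g - vm χ n m g)| ≤ Real.exp (n : ℝ) * C := by
            rw [abs_mul, abs_of_nonneg (by linarith [hc.2.2.1] : 0 ≤ vm χ n (m + 1) g - vm χ n m g)]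
            exact (mul_le_of_le_one_right (abs_nonneg _) (by linarith [hb.2.1, hc.1])).trans a0
          have a2 : |χ (g * aM n) * Al g| ≤ χ (g * aM n) * (C * Real.exp (n : ℝ)) := by
            rw [abs_mul, abs_of_nonneg hu.1]
            exact mul_le_mul_of_nonneg_left (hA2 g) hu.1
          have a3 : |(1 - χ (g * aM n)) * Bl g| ≤ (1 - χ (g * aM n)) * (C * Real.exp (n : ℝ)) := by
            rw [abs_mul, abs_of_nonneg (by linarith [hu.2] : 0 ≤ 1 - χ (g * aM n))]
            exact mul_le_mul_of_nonneg_left (hB2 g) (by linarith [hu.2])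
          have he : ∀ x y z w p q t : ℝ, x * y + z * w + (-x * p + t * q) = x * (y - p) + z * w + t * q := by
            intro x y z w p q t
            ring
          refine (le_of_eq (congrArg abs (he _ _ _ _ _ _ _))).trans ?_
          refine (abs_add_le _ _).trans ?_
          refine (add_le_add (abs_add_le _ _) le_rfl).trans ?_
          nlinarith
  obtain ⟨Ψa, Ψn, Ψl, hS, h1, h2⟩ := key n m
  refine ⟨Ψa, Ψn, Ψl, hS, fun g => (h1 g).trans ?_, fun g => (h2 g).trans ?_⟩
  · have := Real.exp_pos (-(n : ℝ))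
    nlinarith
  · have := Real.exp_pos (n : ℝ)
    nlinarith

end

end Pool.Agent.FT
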